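import Pool.Agent.TH678.GC.Defs
import Pool.Agent.TH678.SQ.Mach
import Pool.Agent.TH678.RS.Diag
import Pool.Agent.H622R2.Exp.YAux

/-! One error -/

set_option autoImplicit false

namespace Pool.Agent.TH678.GC

open Pool.Agent.NPC Pool.Agent.H622R2 Pool.Agent.H620R2.Gauge Pool.Agent.H622R2.Exp
  Pool.Agent.TH678.ETH Pool.Agent.TH678.WP Pool.Agent.TH678.RW Pool.Agent.TH678.SQ
open Pool.Agent.TH678.RS (ev_poly)

/-- an entry -/
def en (e m : ℕ) (i : Fin (2 ^ m)) (c : Bool) : Fin ((e + 2) * m) → Bool := fun p =>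
  if p.val < m then i.val.testBit p.val else if p.val = m then c else false

theorem en_inj {e m : ℕ} (hm : 1 ≤ m) {i i' : Fin (2 ^ m)} {c c' : Bool}
    (h : en e m i c = en e m i' c') : i = i' ∧ c = c' := by
  have e1 : (e + 2) * m = e * m + m + m := by ring
  constructor
  · apply Fin.ext
    apply Nat.eq_of_testBit_eq
    intro p
    by_cases hp : p < m
    · have h1 := congrFun h ⟨p, by omega⟩
      unfold en at h1
      rwa [if_pos hp, if_pos hp] at h1
    · rw [Nat.testBit_lt_two_pow (lt_of_lt_of_le i.isLt (Nat.pow_le_pow_right (by norm_num)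
        (by omega))), Nat.testBit_lt_two_pow (lt_of_lt_of_le i'.isLt
          (Nat.pow_le_pow_right (by norm_num) (by omega)))]
  · have h1 := congrFun h ⟨m, by omega⟩
    unfold en at h1
    simpa using h1

/-- the table -/
def rF (e m κ : ℕ) (f : Fin (2 ^ m) → Bool) : Fin (κ + 1) → Fin (2 ^ m) → Fin ((e + 2) * m) → Bool :=
  fun j i => if j.val = 0 then en e m i (f i) else en e m i false

theorem exists_tuple {e m κ : ℕ} (hm : 1 ≤ m) (f : Fin (2 ^ m) → Bool) (i₀ : Fin (2 ^ m))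
    {S : Finset (List Bool)} (hS : S.card < 2 ^ (m * κ)) :
    ∃ ι : Fin (κ + 1) → Fin (2 ^ m), ι 0 = i₀ ∧ cat (zr (rF e m κ f) ι) ∉ S := by
  by_contra hcon
  push Not at hcon
  have h1 := Finset.card_le_card_of_injOn (s := (Finset.univ : Finset (Fin κ → Fin (2 ^ m))))
    (t := S) (fun g => cat (zr (rF e m κ f) (Fin.cons i₀ g))) (fun g _ => hcon _ rfl)
    (fun g _ g' _ h => by
      have h2 := cat_inj h
      funext j
      have h3 := congrFun h2 j.succ
      unfold zr rF at h3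
      rw [if_neg (by simp), if_neg (by simp), Fin.cons_succ, Fin.cons_succ] at h3
      exact (en_inj hm h3).1)
  rw [Finset.card_univ, Fintype.card_fun, Fintype.card_fin, Fintype.card_fin, ← pow_mul] at h1
  omega

/-- the exponent for the number of questions -/
noncomputable def pe (N : Alg) : ℕ := (YAux.poly_bound N.p).choose

theorem pe_spec (N : Alg) (n : ℕ) : N.p.eval n ≤ (n + 2) ^ pe N :=
  (YAux.poly_bound N.p).choose_spec.2 n

theorem numbers (N : Alg) (s C H L : ℕ) : ∃ m : ℕ, 1 ≤ m ∧ L < m ∧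
    2 * (2 * s + 1 + C * ((m + 1) * 2 ^ m) + 2) ^ pe N < 2 ^ (m * (pe N + 1)) ∧
    ∀ n, n ≤ C * ((m + 1) * 2 ^ m) → m ≤ Nat.log 2 n →
      H * (n / (Nat.log 2 n + 1) ^ 2 + 1) + 1 < 2 ^ m := by
  have h1 := ev_poly (2 * (2 * s + 3 + C) ^ pe N) (pe N)
  obtain ⟨m, h1, h2⟩ := (h1.and (Filter.eventually_ge_atTop (L + 2 * H * C + 2 * H + 8))).exists
  have hlt : m < 2 ^ m := Nat.lt_two_pow_self
  refine ⟨m, by omega, by omega, ?_, fun n hn hlog => ?_⟩
  · have h3 : 1 ≤ (m + 1) * 2 ^ m := Nat.mul_pos (by omega) (by positivity)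
    have h4 : 2 * s + 1 + C * ((m + 1) * 2 ^ m) + 2 ≤ (2 * s + 3 + C) * ((m + 1) * 2 ^ m) := by
      have h5 : (2 * s + 3 + C) * ((m + 1) * 2 ^ m) =
          (2 * s + 3) * ((m + 1) * 2 ^ m) + C * ((m + 1) * 2 ^ m) := by ring
      have h6 : 2 * s + 3 ≤ (2 * s + 3) * ((m + 1) * 2 ^ m) := Nat.le_mul_of_pos_right _ h3
      omega
    calc 2 * (2 * s + 1 + C * ((m + 1) * 2 ^ m) + 2) ^ pe N
        ≤ 2 * ((2 * s + 3 + C) * ((m + 1) * 2 ^ m)) ^ pe N :=
          Nat.mul_le_mul_left _ (Nat.pow_le_pow_left h4 _)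
      _ = 2 * (2 * s + 3 + C) ^ pe N * (m + 1) ^ pe N * 2 ^ (m * pe N) := by
          rw [mul_pow, mul_pow, ← pow_mul]
          ring
      _ < 2 ^ m * 2 ^ (m * pe N) := Nat.mul_lt_mul_of_pos_right h1 (by positivity)
      _ = 2 ^ (m * (pe N + 1)) := by
          rw [← pow_add]
          congr 1
          ring
  · have h3 : n / (Nat.log 2 n + 1) ^ 2 ≤ C * ((m + 1) * 2 ^ m) / (m + 1) ^ 2 :=
      Nat.div_le_div hn (Nat.pow_le_pow_left (by omega) 2) (by positivity)
    have h4 : C * ((m + 1) * 2 ^ m) / (m + 1) ^ 2 = C * 2 ^ m / (m + 1) := by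
      have e1 : C * ((m + 1) * 2 ^ m) = (m + 1) * (C * 2 ^ m) := by ring
      rw [e1, pow_two]
      exact Nat.mul_div_mul_left _ _ (by omega)
    rw [h4] at h3
    have h5 : H * (C * 2 ^ m / (m + 1)) * (m + 1) ≤ H * (C * 2 ^ m) := by
      rw [mul_assoc]
      exact Nat.mul_le_mul_left _ (Nat.div_mul_le_self _ _)
    set D := H * (C * 2 ^ m / (m + 1)) with hD
    have h6 : 2 * D ≤ 2 ^ m := by
      by_contra hcon
      have h7 : 2 ^ m * (m + 1) < 2 * D * (m + 1) :=
        Nat.mul_lt_mul_of_pos_right (by omega) (by omega)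
      have h8 : 2 * D * (m + 1) ≤ 2 * (H * (C * 2 ^ m)) := by
        rw [mul_assoc]
        exact Nat.mul_le_mul_left _ h5
      have h9 : 2 * (H * (C * 2 ^ m)) = (2 * H * C) * 2 ^ m := by ring
      have h10 : (2 * H * C) * 2 ^ m ≤ (m + 1) * 2 ^ m := Nat.mul_le_mul_right _ (by omega)
      have h11 : (m + 1) * 2 ^ m = 2 ^ m * (m + 1) := by ring
      omega
    have h7 : H * (n / (Nat.log 2 n + 1) ^ 2 + 1) ≤ D + H := by
      rw [mul_add, mul_one, hD]
      exact Nat.add_le_add_right (Nat.mul_le_mul_left _ h3) _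
    have h8 : 2 * H + 8 ≤ m := by omega
    omega

end Pool.Agent.TH678.GC
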