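import Pool.Agent.TH678.SQ.Defs

/-!
# Compressions relative to an oracle
-/

set_option autoImplicit false

namespace Pool.Agent.TH678.GC

open Pool.Agent.NPC Pool.Agent.H620R2.Gauge Pool.Agent.TH678.ETH Pool.Agent.TH678.WP
  Pool.Agent.TH678.RW Pool.Agent.TH678.RS Pool.Agent.TH678.SQ

/-- The disjoint union of the oracles `A` and `E`. -/
def join (A E : Oracle) : Oracle
  | [] => false
  | false :: z => A z
  | true :: z => E z

/-- `Q` has a compression relative to `A`: in time `f k * poly |x|` relative to `A`, the instance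
`(x, k)` becomes a string of at most `h k * (|x| / (log |x|) ^ 2 + 1)` bits which decides whether
`(x, k)` is in `Q`, by an arbitrary set `L k`. (The functions `π` and `h` are arbitrary.) -/
def Comp (A : Oracle) (Q : Set (List Bool × ℕ)) : Prop :=
  ∃ (π : ℕ → List Bool) (h : ℕ → ℕ) (R : List Bool → List Bool) (L : ℕ → Set (List Bool)),
    IsFP A R ∧ ∀ x k,
      (R (pairBits (π k) x)).length ≤ h k * (x.length / (Nat.log 2 x.length + 1) ^ 2 + 1) ∧
      ((x, k) ∈ Q ↔ R (pairBits (π k) x) ∈ L k)

end Pool.Agent.TH678.GC
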