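import Pool.Agent.TH678.GC.One
import Mathlib.Topology.Baire.Lemmas

/-! No compressions relative to generic oracles -/

set_option autoImplicit false

namespace Pool.Agent.TH678.GC

open Pool.Agent.NPC Pool.Agent.H622R2 Pool.Agent.H620R2.Gauge Pool.Agent.H622R2.Exp
  Pool.Agent.TH678.ETH Pool.Agent.TH678.WP Pool.Agent.TH678.RW Pool.Agent.TH678.SQ
  Pool.Agent.TH678.RS

theorem join_loc {E A B : Oracle} {n : ℕ} (h : ∀ u : List Bool, u.length ≤ n → A u = B u)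
    (q : List Bool) (hq : q.length ≤ n) : join A E q = join B E q := by
  rcases q with _ | ⟨c, q⟩
  · rfl
  cases c with
  | true => rfl
  | false =>
    refine h q ?_
    rw [List.length_cons] at hq
    omega

theorem hitR_loc {E A B : Oracle} {e m k : ℕ} {r : Fin k → Fin (2 ^ m) → Fin ((e + 2) * m) → Bool}
    (h : ∀ u : List Bool, u.length ≤ k * ((e + 2) * m) + 1 → A u = B u) :
    HitR (join A E) r ↔ HitR (join B E) r := by
  unfold HitR
  refine exists_congr fun ι => ?_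
  rw [join_loc h _ (by rw [length_ls])]

theorem open_Long (E : Oracle) (N : Alg) (σ : List Bool) (H : ℕ) (x : List Bool) :
    IsOpen {A | Long E N σ H x A} := by
  obtain ⟨qb, hqb⟩ := N.out_local
  refine isOpen_of_loc (qb.eval (pairBits σ x).length) fun B B' hB h ρ hρ => ?_
  refine h ρ ?_
  obtain ⟨Q, _, hQ2, hQ3⟩ := hqb (join B' E) (pairBits σ x)
  rw [hQ3 (join B E) fun q hq => join_loc hB q (hQ2 q hq)]
  exact hρ

theorem open_Same (E : Oracle) (N : Alg) (σ : List Bool) (e m : ℕ) (f f' : Fin (2 ^ m) → Bool) :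
    IsOpen {A | Same E N σ e m f f' A} := by
  obtain ⟨qb, hqb⟩ := N.out_local
  set x := pairBits σ (Xq (rF e m (pe N + 1) f)) with hx
  set x' := pairBits σ (Xq (rF e m (pe N + 1) f')) with hx'
  refine isOpen_of_loc (max (max (qb.eval x.length) (qb.eval x'.length))
    ((pe N + 1 + 1) * ((e + 2) * m) + 1)) fun B B' hB h => ?_
  obtain ⟨⟨ρ, h1, h2⟩, h3, h4⟩ := h
  refine ⟨⟨ρ, ?_, ?_⟩, ?_, ?_⟩
  · obtain ⟨Q, _, hQ2, hQ3⟩ := hqb (join B E) x
    rw [hQ3 (join B' E) fun q hq => (join_loc hB q ((hQ2 q hq).trans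
      ((le_max_left _ _).trans (le_max_left _ _)))).symm]
    exact h1
  · obtain ⟨Q, _, hQ2, hQ3⟩ := hqb (join B E) x'
    rw [hQ3 (join B' E) fun q hq => (join_loc hB q ((hQ2 q hq).trans
      ((le_max_right _ _).trans (le_max_left _ _)))).symm]
    exact h2
  · exact (hitR_loc fun u hu => hB u (hu.trans (le_max_right _ _))).1 h3
  · exact fun h5 => h4 ((hitR_loc fun u hu => hB u (hu.trans (le_max_right _ _))).2 h5)

/-- the set of the oracles for which the requirement is satisfied -/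
def Gj (E : Oracle) (e : ℕ) (j : Alg × List Bool × ℕ) : Set Oracle :=
  {A | (∃ x, Long E j.1 j.2.1 j.2.2 x A) ∨ ∃ m f f', Same E j.1 j.2.1 e m f f' A}

theorem open_Gj (E : Oracle) (e : ℕ) (j : Alg × List Bool × ℕ) : IsOpen (Gj E e j) := by
  have h1 : Gj E e j = (⋃ x, {A | Long E j.1 j.2.1 j.2.2 x A}) ∪
      ⋃ m, ⋃ f, ⋃ f', {A | Same E j.1 j.2.1 e m f f' A} := by
    ext A
    simp [Gj]
  rw [h1]
  exact (isOpen_iUnion fun x => open_Long E _ _ _ x).union (isOpen_iUnion fun m =>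
    isOpen_iUnion fun f => isOpen_iUnion fun f' => open_Same E _ _ e m f f')

theorem dense_Gj (E : Oracle) (e : ℕ) (j : Alg × List Bool × ℕ) : Dense (Gj E e j) := by
  rw [dense_iff_inter_open]
  rintro U hU ⟨B₀, hB₀⟩
  obtain ⟨I, u, hu1, hu2⟩ := isOpen_pi_iff.1 hU B₀ hB₀
  obtain ⟨A, hA1, hA2⟩ := one E e j.1 j.2.1 j.2.2 B₀ (I.sup List.length)
  refine ⟨A, hu2 fun z hz => ?_, hA2⟩
  rw [hA1 z (Finset.le_sup (f := List.length) hz)]
  exact (hu1 z hz).2

theorem main (E : Oracle) : ∀ᶠ A in residual Oracle, ∀ e : ℕ,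
    ¬ Comp (join A E) (kHaltS e (join A E)) := by
  have hcn := CC.poly_countable
  have h1 : ∀ᶠ A in residual Oracle, ∀ e : ℕ, ∀ j : Alg × List Bool × ℕ, A ∈ Gj E e j :=
    eventually_countable_forall.2 fun e => eventually_countable_forall.2 fun j =>
      residual_of_dense_open (open_Gj E e j) (dense_Gj E e j)
  filter_upwards [h1] with A hA e
  rintro ⟨π, h, R, L, ⟨N, hN⟩, hP⟩
  rcases hA e (N, π (pe N + 1 + 1), h (pe N + 1 + 1)) with ⟨x, hx⟩ | ⟨m, f, f', ⟨ρ, h1, h2⟩, h3, h4⟩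
  · exact hx _ (hN _) (hP x (pe N + 1 + 1)).1
  · simp only [hN, Option.some.injEq] at h1 h2
    have h5 := (hP (Xq (rF e m (pe N + 1) f)) (pe N + 1 + 1)).2
    have h6 := (hP (Xq (rF e m (pe N + 1) f')) (pe N + 1 + 1)).2
    rw [kHaltS_iff (join A E) (by omega) (rF e m (pe N + 1) f), h1] at h5
    rw [kHaltS_iff (join A E) (by omega) (rF e m (pe N + 1) f'), h2] at h6
    exact h4 (h6.2 (h5.1 h3))

theorem log_bound (c : ℕ) : ∃ C : ℕ, ∀ n : ℕ,
    (Nat.log 2 n + 1) ^ c ≤ C * (n / (Nat.log 2 n + 1) ^ 2 + 1) := by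
  obtain ⟨m₀, hm₀⟩ := Filter.eventually_atTop.1 (ev_poly 1 (c + 2))
  refine ⟨(m₀ + 1) ^ c + 1, fun n => ?_⟩
  by_cases h : m₀ ≤ Nat.log 2 n
  · rcases Nat.eq_zero_or_pos n with h0 | h0
    · subst h0
      simp
    have h1 := hm₀ _ h
    rw [one_mul] at h1
    have h2 : 2 ^ Nat.log 2 n ≤ n := Nat.pow_log_le_self 2 (by omega)
    have h3 : (Nat.log 2 n + 1) ^ c ≤ n / (Nat.log 2 n + 1) ^ 2 := by
      rw [Nat.le_div_iff_mul_le (by positivity), ← pow_add]
      omega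
    calc (Nat.log 2 n + 1) ^ c ≤ 1 * (n / (Nat.log 2 n + 1) ^ 2 + 1) := by
          rw [one_mul]
          exact h3.trans (Nat.le_succ _)
      _ ≤ ((m₀ + 1) ^ c + 1) * (n / (Nat.log 2 n + 1) ^ 2 + 1) :=
          Nat.mul_le_mul_right _ (by omega)
  · have h1 : (Nat.log 2 n + 1) ^ c ≤ (m₀ + 1) ^ c := Nat.pow_le_pow_left (by omega) _
    calc (Nat.log 2 n + 1) ^ c ≤ ((m₀ + 1) ^ c + 1) * 1 := by omega
      _ ≤ ((m₀ + 1) ^ c + 1) * (n / (Nat.log 2 n + 1) ^ 2 + 1) :=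
          Nat.mul_le_mul_left _ (Nat.le_add_left 1 _)

/-- The problems in `M[1]` have compressions. -/
theorem m1_comp {A : Oracle} {Q : Set (List Bool × ℕ)} (h : InM1 A Q) : Comp A Q := by
  obtain ⟨π, h, c, R, L, _, _, hR, _, hQ⟩ := h
  obtain ⟨C, hC⟩ := log_bound c
  refine ⟨π, fun k => h k ^ c * C, R, fun _ => L, hR, fun x k => ⟨?_, (hQ x k).2⟩⟩
  refine (hQ x k).1.trans ?_
  rw [mul_pow, mul_assoc]
  exact Nat.mul_le_mul_left _ (hC _)

end Pool.Agent.TH678.GC
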