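import Pool.Agent.TH678.GC.Core
import Pool.Agent.H620R2.GaugeX.X1

/-! One error -/

set_option autoImplicit false

namespace Pool.Agent.TH678.GC

open Pool.Agent.NPC Pool.Agent.H622R2 Pool.Agent.H620R2.Gauge Pool.Agent.H622R2.Exp
  Pool.Agent.TH678.ETH Pool.Agent.TH678.WP Pool.Agent.TH678.RW Pool.Agent.TH678.SQ

/-- the first kind: no output, or a long one -/
def Long (E : Oracle) (N : Alg) (σ : List Bool) (H : ℕ) (x : List Bool) (A : Oracle) : Prop :=
  ∀ ρ, N.out (join A E) (pairBits σ x) = some ρ →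
    ¬ ρ.length ≤ H * (x.length / (Nat.log 2 x.length + 1) ^ 2 + 1)

/-- the second kind: the same output for different instances -/
def Same (E : Oracle) (N : Alg) (σ : List Bool) (e m : ℕ) (f f' : Fin (2 ^ m) → Bool)
    (A : Oracle) : Prop :=
  (∃ ρ, N.out (join A E) (pairBits σ (Xq (rF e m (pe N + 1) f))) = some ρ ∧
    N.out (join A E) (pairBits σ (Xq (rF e m (pe N + 1) f'))) = some ρ) ∧
  HitR (join A E) (rF e m (pe N + 1) f) ∧ ¬ HitR (join A E) (rF e m (pe N + 1) f')

open Classical in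
theorem one (E : Oracle) (e : ℕ) (N : Alg) (σ : List Bool) (H : ℕ) (B₀ : Oracle) (L : ℕ) :
    ∃ A : Oracle, (∀ u : List Bool, u.length ≤ L → A u = B₀ u) ∧
      ((∃ x, Long E N σ H x A) ∨ ∃ m f f', Same E N σ e m f f' A) := by
  obtain ⟨m, hm, hL, hc, hnum⟩ := numbers N σ.length (120 * (pe N + 1 + 1 + 2) ^ 2 * (e + 2)) H L
  set A₀ : Oracle := fun v => if v.length ≤ L then B₀ v else false with hA₀
  have hA₀' : ∀ v : List Bool, v.length ≤ L → A₀ v = B₀ v := fun v hv => if_pos hv
  by_cases hbad : ∃ x, Long E N σ H x A₀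
  · exact ⟨A₀, hA₀', Or.inl hbad⟩
  unfold Long at hbad
  push Not at hbad
  choose ρ hρ1 hρ2 using hbad
  set X : (Fin (2 ^ m) → Bool) → List Bool := fun f => Xq (rF e m (pe N + 1) f) with hX
  have hXlen : ∀ f, (X f).length ≤
      120 * (pe N + 1 + 1 + 2) ^ 2 * (e + 2) * ((m + 1) * 2 ^ m) := fun f =>
    length_Xq e m (by omega) _
  have hXlog : ∀ f, m ≤ Nat.log 2 (X f).length := by
    intro f
    apply Nat.le_log_of_pow_le (by norm_num)
    have h1 := length_lt_sz (mq (rF e m (pe N + 1) f))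
    rw [length_mq] at h1
    have h2 : (X f).length = sz (mq (rF e m (pe N + 1) f)) := rfl
    have h3 : 1 * 2 ^ m ≤ (pe N + 1 + 1) * 2 ^ m := Nat.mul_le_mul_right _ (by omega)
    omega
  obtain ⟨U, hU1, hU2⟩ := exists_short (2 ^ m - 2)
  have hm2 : 2 ≤ 2 ^ m := by
    calc 2 = 2 ^ 1 := by norm_num
      _ ≤ 2 ^ m := Nat.pow_le_pow_right (by norm_num) hm
  have hcard : U.card < (Finset.univ : Finset (Fin (2 ^ m) → Bool)).card := by
    rw [Finset.card_univ, Fintype.card_fun, Fintype.card_bool, Fintype.card_fin]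
    exact lt_of_le_of_lt hU1 (Nat.pow_lt_pow_right (by norm_num) (by omega))
  obtain ⟨f, _, f', _, hff, hρ⟩ := Finset.exists_ne_map_eq_of_card_lt_of_maps_to hcard
    (f := fun f => ρ (X f)) (fun f _ => by
      refine hU2 _ ?_
      show (ρ (X f)).length ≤ 2 ^ m - 2
      have h1 := hρ2 (X f)
      have h2 := hnum _ (hXlen f) (hXlog f)
      omega)
  obtain ⟨i₀, hi₀⟩ := Function.ne_iff.1 hff
  obtain ⟨qb, hqb⟩ := N.out_local
  obtain ⟨Q, hQ1, _, hQ3⟩ := hqb (join A₀ E) (pairBits σ (X f))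
  obtain ⟨Q', hQ1', _, hQ3'⟩ := hqb (join A₀ E) (pairBits σ (X f'))
  have hS : ((Q ∪ Q').image List.tail).card < 2 ^ (m * (pe N + 1)) := by
    refine lt_of_le_of_lt (Finset.card_image_le.trans ((Finset.card_union_le _ _).trans ?_)) hc
    have key : ∀ g, N.p.eval (pairBits σ (X g)).length ≤
        (2 * σ.length + 1 + 120 * (pe N + 1 + 1 + 2) ^ 2 * (e + 2) * ((m + 1) * 2 ^ m) + 2) ^
          pe N := by
      intro g
      refine (pe_spec N _).trans (Nat.pow_le_pow_left ?_ _)
      rw [length_pairBits]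
      have := hXlen g
      omega
    have h1 := hQ1.trans (key f)
    have h2 := hQ1'.trans (key f')
    omega
  obtain ⟨ι, hι, hz⟩ := exists_tuple (e := e) hm f i₀ hS
  set z := cat (zr (rF e m (pe N + 1) f) ι) with hzdef
  have hzl : L < z.length := by
    rw [hzdef, length_cat]
    have e1 : (pe N + 1 + 1) * ((e + 2) * m) = (pe N + 1) * ((e + 2) * m) + e * m + m + m := by
      ring
    omega
  set A : Oracle := Function.update A₀ z true with hA
  have hAz : A z = true := by rw [hA, Function.update_self]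
  have hAo : ∀ v, v ≠ z → A v = A₀ v := fun v hv => by rw [hA, Function.update_of_ne hv]
  have hloc : ∀ q ∈ Q ∪ Q', join A E q = join A₀ E q := by
    intro q hq
    rcases q with _ | ⟨c, q⟩
    · rfl
    cases c with
    | true => rfl
    | false =>
      refine hAo q ?_
      rintro rfl
      exact hz (Finset.mem_image.2 ⟨_, hq, rfl⟩)
  refine ⟨A, fun u hu => ?_, Or.inr ⟨m, f, f', ⟨ρ (X f), ?_, ?_⟩, ⟨ι, hAz⟩, ?_⟩⟩
  · rw [hAo u (by rintro rfl; omega), hA₀' u hu]
  · have h1 := hQ3 (join A E) fun q hq => hloc q (Finset.mem_union_left _ hq)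
    exact h1.trans (hρ1 (X f))
  · have h1 := hQ3' (join A E) fun q hq => hloc q (Finset.mem_union_right _ hq)
    have h2 : ρ (X f) = ρ (X f') := hρ
    rw [h2]
    exact h1.trans (hρ1 (X f'))
  · rintro ⟨ι', hι'⟩
    have h1 : A (cat (zr (rF e m (pe N + 1) f') ι')) = true := hι'
    by_cases h2 : cat (zr (rF e m (pe N + 1) f') ι') = z
    · have h3 := congrFun (cat_inj h2) 0
      have h4 : en e m (ι' 0) (f' (ι' 0)) = en e m (ι 0) (f (ι 0)) := h3
      obtain ⟨h5, h6⟩ := en_inj hm h4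
      rw [h5, hι] at h6
      exact hi₀ h6.symm
    · rw [hAo _ h2] at h1
      have h3 : ¬ (cat (zr (rF e m (pe N + 1) f') ι')).length ≤ L := by
        have h4 : (cat (zr (rF e m (pe N + 1) f') ι')).length = z.length := by
          rw [hzdef, length_cat, length_cat]
        omega
      have h4 : A₀ (cat (zr (rF e m (pe N + 1) f') ι')) = false := if_neg h3
      rw [h4] at h1
      exact Bool.false_ne_true h1

end Pool.Agent.TH678.GC
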